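import Pool.Agent.Y230.TL.Fin
import Pool.Agent.Y230.TL.A
import Pool.Agent.Y230.TL.U
import Pool.Agent.Y64.TL.ExpB
import Pool.Agent.Y475.TL.L
import Pool.Agent.Y448.TL.J

/-!
# The monodromy conjecture at the origin for Thom-Sebastiani sums `∑ y_j f_j(x) + g(z)`

We prove the monodromy conjecture for the local topological zeta functions at the origin of the
following polynomials `F`: for every pole `s₀` there is a root `s₀ - i`, `i ∈ ℕ`, of the local
Bernstein-Sato polynomial of `F` at the origin; by the theorem of Malgrange and Kashiwara,
`exp(2 π i s₀)` is an eigenvalue of the monodromy at a point of the hypersurface near the origin.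

Let `𝓘` and `𝓗` be the least classes of germs of ideals and of hypersurfaces at the origin with the
following properties.

* `𝓘` contains the unit ideal; the powers `(x ^ m)`; all non-zero ideals of `ℂ[x, y]`; the ideals of
  `ℂ[x₀, x₁, x₂]` generated by forms of the same degree, three of which are algebraically independent;
  the ideals generated by forms of the same degree without a common zero outside the origin; the
  principal ideals `(g)` of polynomials which are nondegenerate with respect to the Newton polytope, or
  have very general coefficients at the vertices of the Newton polyhedron; the principal ideals `(h)`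
  with `h` in `𝓗`; and `𝓘` is closed under sums and products in disjoint sets of variables.
* `𝓗` contains the plane curves, the polynomials with very general coefficients at the vertices of the
  Newton polyhedron, and the nondegenerate polynomials, in each case if the zeta function has at most
  a simple pole at `-1`; for `(f_j)` in `𝓘` and `g` in `𝓗`, `g(0) = 0`, it contains `∑ y_j f_j(x)`
  and `∑ y_j f_j(x) + g(z)`, with new variables `y_j`; and `𝓗` is closed under dropping variables which
  do not occur.

For example, `∑ y_j f_j(x) + g(z)` with arbitrary polynomials `f_j` in two variables and a nondegenerate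
polynomial `g` in any number of variables, such that `Z_g` has at most a simple pole at `-1`, and all
polynomials which are obtained if this construction is repeated.

For `F = ∑ y_j f_j(x) + g(z)` the zeta function is obtained from the ones of `(f_j)` and `g` by a
product of exponential polynomials, see `Pool/Agent/Y230/TL/Defs`, so that the poles `≠ -1` are among
the sums `α + β`, where `α` is a pole of `Z_I` and `β` a pole of `(s + 1) Z_g`; and `α + β` is a root of
`b_F(s) / (s + 1)` at the origin if `α` and `β` are forced roots for `I` and `g`: consider all
functional equations `(s + 1) B(x, s) F ^ s = P(s) F ^ (s + 1)` with polynomial coefficients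
`B(x, s)`; if `B(0, β) = 0` for all those of `g` and `B(0, α) = 0` for all those of `(f_j)` (without
the factor `s + 1`), then `B(0, α + β) = 0` for those of `F`, by the microlocal description of the
functional equations.
-/

set_option autoImplicit false

namespace Pool.Agent.Results.MP_aa7fc1_ag.ThomSebastianiLocal

open MvPolynomial Pool.Agent.W574.SM Pool.Agent.W574.RO Pool.Agent.H628R4.TP Pool.Agent.TH192.DT
  Pool.Agent.Y229 Pool.Agent.Y230.TL

/-- **The monodromy conjecture at the origin for Thom-Sebastiani sums.** Let
`TT (Fi WeakLocal) WeakHyp c A Z` be the classes of germs of ideals (`c = false`) and of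
hypersurfaces (`c = true`) at the origin with their local topological zeta functions `Z` which are
obtained from the ideals in the first class (with finitely many variables, `Fi`) and the
hypersurfaces in the second class by sums and products in disjoint sets of variables, by
`∑ y_j f_j(x)` and by `∑ y_j f_j(x) + g(z)`.

Let `F` be a polynomial with `TT (Fi WeakLocal) WeakHyp false (F) Z`, and let `b` satisfy a
functional equation `b(s) F ^ s = P(s) F ^ (s + 1)`, where `P(s)` is a differential operator with formal
power series coefficients at the origin. Then for every pole `s₀` of `Z` there is `i ∈ ℕ` with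
`b(s₀ - i) = 0`. -/
theorem result {σ : Type} (F : MvPolynomial σ ℂ) (Z : RatFunc ℂ)
    (h : TT (Fi WeakLocal) WeakHyp false ⟨σ, Fin 1, fun _ => F⟩ Z)
    (b : Polynomial ℂ) (hb : IsLocalBFunction F b) (s₀ : ℂ) (hs : Z.denom.eval s₀ = 0) :
    ∃ i : ℕ, b.eval (s₀ - i) = 0 :=
  tl_weak (Pool.Agent.Y448.TL.tJ tA Pool.Agent.Y64.TL.tB) (tU Pool.Agent.Y64.TL.tB)
    Pool.Agent.Y475.TL.tL F Z h b hb s₀ hs

end Pool.Agent.Results.MP_aa7fc1_ag.ThomSebastianiLocal
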